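import Pool.Agent.H586R3.OP.Stmts2

/-! Project H586-OP2, task A4. -/

set_option autoImplicit false

namespace H360R3OP

open H586OP2

theorem centre_free (n k : ℕ) (f : Fin k → Fin (2 * n) → Fin (2 * n - 1) ⊕ Fin k) (hn : 1 ≤ n)
    (hk : 1 ≤ k)
    (hadj : ∀ i u v, (PT (2 * n) (fam n k i)).Adj u v →
      (completeBipartiteGraph (Fin (2 * n - 1)) (Fin k)).Adj (f i u) (f i v)) :
    ∃ b : Fin k, ∀ i : Fin k, i.val ≠ 0 →
      f i ⟨0, by omega⟩ ≠ Sum.inr b ∧ f i ⟨1, by omega⟩ ≠ Sum.inr b := by
  classical
  let z : Fin (2 * n) := ⟨0, by omega⟩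
  let o : Fin (2 * n) := ⟨1, by omega⟩
  let β : Fin k → Fin k := fun i =>
    match f i z with
    | Sum.inr b => b
    | Sum.inl _ =>
      match f i o with
      | Sum.inr b => b
      | Sum.inl _ => ⟨0, hk⟩
  let B : Finset (Fin k) := (Finset.univ.filter (fun i : Fin k => i.val ≠ 0)).image β
  have hB : B.card < k := by
    have h1 : (Finset.univ.filter (fun i : Fin k => i.val ≠ 0)).card < k := by
      have h2 : (Finset.univ.filter (fun i : Fin k => i.val ≠ 0)) ⊂ Finset.univ := by
        rw [Finset.ssubset_univ_iff]
        intro h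
        have h3 : (⟨0, hk⟩ : Fin k) ∈ Finset.univ.filter (fun i : Fin k => i.val ≠ 0) := by
          rw [h]; exact Finset.mem_univ _
        exact (Finset.mem_filter.1 h3).2 rfl
      have h4 := Finset.card_lt_card h2
      simpa using h4
    exact lt_of_le_of_lt Finset.card_image_le h1
  have hne : ∃ b, b ∉ B := by
    by_contra hc
    push Not at hc
    have : B = Finset.univ := Finset.eq_univ_iff_forall.2 hc
    rw [this, Finset.card_univ, Fintype.card_fin] at hB
    exact lt_irrefl _ hB
  obtain ⟨b, hb⟩ := hne
  refine ⟨b, fun i hi => ?_⟩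
  have hβ : β i ≠ b := by
    intro h
    exact hb (Finset.mem_image.2 ⟨i, Finset.mem_filter.2 ⟨Finset.mem_univ _, hi⟩, h⟩)
  have hA : (PT (2 * n) (fam n k i)).Adj z o := by
    right
    refine ⟨by simp [z, o, Fin.lt_def], ?_⟩
    unfold fam
    rw [if_neg hi]
    apply Fin.ext
    simp [z, o]
  have hAd := hadj i z o hA
  constructor
  · intro h
    apply hβ
    have h' : f i z = Sum.inr b := h
    simp only [β]
    rw [h']
  · intro h
    have h' : f i o = Sum.inr b := h
    apply hβ
    cases hz : f i z with
    | inl a =>
      simp only [β]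
      rw [hz, h']
    | inr c =>
      rw [hz, h'] at hAd
      simp [completeBipartiteGraph] at hAd

theorem taskA4 : TaskA4 := by
  classical
  intro n k f hn hk hinj hadj hcov
  obtain ⟨b, hb⟩ := centre_free n k f hn hk hadj
  let i0 : Fin k := ⟨0, hk⟩
  let R : Fin (2 * n - 1) → Option (Fin k) → Prop := fun a c =>
    match c with
    | some i => ∃ w : Fin (2 * n), f i w = Sum.inr b ∧ f i (fam n k i w) = Sum.inl a
    | none => ∃ w : Fin (2 * n), w.val ≠ 0 ∧ f i0 w = Sum.inl a ∧
        f i0 (fam n k i0 w) = Sum.inr b
  have hex : ∀ a, ∃ c, R a c := by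
    intro a
    obtain ⟨i, w, hw, h⟩ := hcov a b
    by_cases hi : i.val = 0
    · have hi0 : i = i0 := Fin.ext hi
      subst hi0
      rcases h with h | h
      · exact ⟨none, w, hw, h⟩
      · exact ⟨some i0, w, h⟩
    · rcases h with h | h
      · exfalso
        have hc : fam n k i w = ⟨0, by omega⟩ ∨ fam n k i w = ⟨1, by omega⟩ := by
          unfold fam
          rw [if_neg hi]
          by_cases hp : w.val % 2 = 1
          · left
            apply Fin.ext
            simp [hp]
          · right
            apply Fin.ext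
            simp only [if_neg hp]
            omega
        rcases hc with hc | hc
        · rw [hc] at h
          exact (hb i hi).1 h.2
        · rw [hc] at h
          exact (hb i hi).2 h.2
      · exact ⟨some i, w, h⟩
  choose c hc using hex
  have hcinj : Function.Injective c := by
    intro a a' haa
    have h1 := hc a
    have h2 := hc a'
    rw [← haa] at h2
    cases hca : c a with
    | some i =>
      rw [hca] at h1 h2
      obtain ⟨w, hw1, hw2⟩ := h1
      obtain ⟨w', hw1', hw2'⟩ := h2
      have : w = w' := hinj i (hw1.trans hw1'.symm)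
      subst this
      exact Sum.inl_injective (hw2.symm.trans hw2')
    | none =>
      rw [hca] at h1 h2
      obtain ⟨w, hw0, hw1, hw2⟩ := h1
      obtain ⟨w', hw0', hw1', hw2'⟩ := h2
      have h3 : fam n k i0 w = fam n k i0 w' := hinj i0 (hw2.trans hw2'.symm)
      have h4 : w = w' := by
        unfold fam at h3
        rw [if_pos rfl, if_pos rfl] at h3
        have h5 := congrArg Fin.val h3
        simp only at h5
        apply Fin.ext
        omega
      subst h4
      exact Sum.inl_injective (hw1.symm.trans hw1')
  have hcard := Fintype.card_le_of_injective c hcinj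
  rw [Fintype.card_fin, Fintype.card_option, Fintype.card_fin] at hcard
  omega

end H360R3OP
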